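import Pool.Agent.Run7.h67.BE.PTS
import Pool.Agent.Run7.h253.BE.EAR

/-!
# C2 (h354): all the phases of the skyscraper sheaves are equal
-/

set_option autoImplicit false
set_option linter.unusedSectionVars false
set_option linter.unusedVariables false

open CategoryTheory CategoryTheory.Limits Pretriangulated Triangulated Complex ZeroObject
open Run7.h354.BE
open Pool.Agent.Helper445_GMF

namespace Run7.h67.BEG

universe w

/-! ### zeros -/

theorem cg_countable (τ a : ℂ) : {z : ℂ | Cg τ z a}.Countable := by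
  have h : {z : ℂ | Cg τ z a} ⊆ Set.range fun p : ℤ × ℤ => a + ((p.1 : ℂ) + p.2 * τ) := by
    rintro z ⟨m, n, h⟩
    exact ⟨(m, n), by show a + ((m : ℂ) + n * τ) = z; rw [← h]; ring⟩
  exact (Set.countable_range _).mono h

theorem zeros_countable (hSEC : S_SEC) {τ : ℂ} (hτ : 0 < τ.im) {u : ℂ → ℂ → ℂ} (hu : TH τ u)
    {γ : Gam} {g : ℂ → ℂ} (hg : g ∈ V τ γ) (h0 : g ≠ 0) : {z : ℂ | g z = 0}.Countable := by
  obtain ⟨l, k, r, hr, _, hz⟩ := (hSEC τ hτ u hu).2 γ g hg h0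
  have h : {z : ℂ | g z = 0} ⊆ ⋃ a ∈ (l.toFinset : Set ℂ), {z : ℂ | Cg τ z a} := by
    intro z hz0
    have h1 : g z = 0 := hz0
    rw [hz z] at h1
    have h2 : (l.map fun a => u a z).prod = 0 :=
      (mul_eq_zero.1 h1).resolve_left (mul_ne_zero hr (exp_ne_zero _))
    rw [List.prod_eq_zero_iff] at h2
    obtain ⟨a, ha, ha0⟩ := List.mem_map.1 h2
    simp only [Set.mem_iUnion]
    exact ⟨a, by simpa using ha, (hu.zero a z).1 ha0⟩
  refine Set.Countable.mono h ?_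
  exact (l.toFinset.countable_toSet).biUnion fun a _ => cg_countable τ a

/-! ### sheaves as objects of the triangulated category -/

variable {τ τ' : ℂ} [HasDerivedCategory.{w} (QC τ τ' false)]

/-- the sheaf as a complex is in `D^b` -/
def InD (N : QC τ τ' false) : Prop := DbX τ τ' ((DerivedCategory.singleFunctor _ 0).obj N)

/-- a sheaf as an object -/
noncomputable def ob (N : QC τ τ' false) (h : InD N) : (DbX τ τ').FullSubcategory :=
  ⟨(DerivedCategory.singleFunctor _ 0).obj N, h⟩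

/-- a map of sheaves -/
noncomputable def obm {N N' : QC τ τ' false} (f : N ⟶ N') (h : InD N) (h' : InD N') :
    ob N h ⟶ ob N' h' :=
  ObjectProperty.homMk ((DerivedCategory.singleFunctor _ 0).map f)

theorem obm_ne {N N' : QC τ τ' false} {f : N ⟶ N'} (h : InD N) (h' : InD N') (hf : f ≠ 0) :
    obm f h h' ≠ 0 := by
  intro h0
  apply hf
  apply (DerivedCategory.singleFunctor (QC τ τ' false) 0).map_injective
  rw [Functor.map_zero]
  exact congrArg (fun k => k.hom) h0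

theorem obm_sub {N N' : QC τ τ' false} (f g : N ⟶ N') (l : ℂ) (h : InD N) (h' : InD N') :
    obm f h h' - l • obm g h h' = obm (f - l • g) h h' := by
  refine ObjectProperty.hom_ext _ ?_
  show (DerivedCategory.singleFunctor (QC τ τ' false) 0).map f -
    l • (DerivedCategory.singleFunctor (QC τ τ' false) 0).map g =
    (DerivedCategory.singleFunctor (QC τ τ' false) 0).map (f - l • g)
  rw [Functor.map_sub, Functor.map_smul]

theorem ob_tri {S : ShortComplex (QC τ τ' false)} (hS : S.ShortExact) (h1 : InD S.X₁) (h2 : InD S.X₂)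
    (h3 : InD S.X₃) : ∃ h', Triangle.mk (obm S.f h1 h2) (obm S.g h2 h3) h' ∈
      distTriang (DbX τ τ').FullSubcategory :=
  Run7.h253.BE.full_dist (obm S.f h1 h2) (obm S.g h2 h3) _ _ _ hS.singleTriangle_distinguished
    (Iso.refl _) (Iso.refl _) (Iso.refl _)
    ((Category.comp_id _).trans (Category.id_comp _).symm)
    ((Category.comp_id _).trans (Category.id_comp _).symm)

/-- isomorphic sheaves -/
noncomputable def obIso {N N' : QC τ τ' false} (e : N ≅ N') (h : InD N) (h' : InD N') :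
    ob N h ≅ ob N' h' :=
  ObjectProperty.isoMk _ ((DerivedCategory.singleFunctor _ 0).mapIso e)

theorem coker_mem {N N' : QC τ τ' false} (f : N ⟶ N') [Mono f] (h : InD N) (h' : InD N') :
    InD (cokernel f) := by
  have hS : (ShortComplex.mk f (cokernel.π f) (cokernel.condition f)).ShortExact :=
    { exact := ShortComplex.exact_cokernel f }
  exact sing3 hS h h'

theorem coker_tri {N N' : QC τ τ' false} (f : N ⟶ N') [Mono f] (h : InD N) (h' : InD N')
    (h3 : InD (cokernel f)) : ∃ k, Triangle.mk (obm f h h') (obm (cokernel.π f) h' h3) k ∈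
      distTriang (DbX τ τ').FullSubcategory := by
  have hS : (ShortComplex.mk f (cokernel.π f) (cokernel.condition f)).ShortExact :=
    { exact := ShortComplex.exact_cokernel f }
  exact ob_tri hS h h' h3

/-- The cokernel of a composition of two monomorphisms, as an extension. -/
theorem coker_ext (hSUM : S_SUM.{w, 1}) (σ : PreStab (DbX τ τ').FullSubcategory) (φ : ℝ)
    {X Y Z P₁ P₂ : QC τ τ' false} (f : X ⟶ Y) (g : Y ⟶ Z) (p₁ : Y ⟶ P₁) (p₂ : Z ⟶ P₂)
    (e₁ : f ≫ p₁ = 0) (e₂ : g ≫ p₂ = 0) (h₁ : (ShortComplex.mk f p₁ e₁).ShortExact)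
    (h₂ : (ShortComplex.mk g p₂ e₂).ShortExact) (hX : InD X) (hY : InD Y) (hZ : InD Z)
    (hP₁ : InD P₁) (hP₂ : InD P₂) (hK : InD (cokernel (f ≫ g)))
    (s₁ : σ.P φ (ob P₁ hP₁)) (s₂ : σ.P φ (ob P₂ hP₂)) : σ.P φ (ob (cokernel (f ≫ g)) hK) := by
  have := h₁.mono_f
  have := h₂.mono_f
  have m1 : Mono f := h₁.mono_f
  have m2 : Mono g := h₂.mono_f
  obtain ⟨w₁, t₁⟩ := ob_tri h₁ hX hY hP₁
  obtain ⟨w₂, t₂⟩ := ob_tri h₂ hY hZ hP₂
  obtain ⟨w₃, t₃⟩ := coker_tri (f ≫ g) hX hZ hK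
  have hc : obm f hX hY ≫ obm g hY hZ = obm (f ≫ g) hX hZ := by
    refine ObjectProperty.hom_ext _ ?_
    exact ((DerivedCategory.singleFunctor (QC τ τ' false) 0).map_comp f g).symm
  let o := Triangulated.someOctahedron hc t₁ t₂ t₃
  exact (hSUM _ σ φ).2.2 _ o.mem s₁ s₂

/-- **One pencil.** The set of the members with another phase is countable. -/
theorem pencil (hPEN : S_PEN.{w, 1}) (σ : PreStab (DbX τ τ').FullSubcategory) (φ : ℝ)
    {G₀ G₁ : QC τ τ' false} (h0 : InD G₀) (h1 : InD G₁) (α β : G₀ ⟶ G₁)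
    (hm : ∀ l : ℂ, Mono (α - l • β)) (hK : ∀ l, InD (cokernel (α - l • β)))
    (hs : σ.P φ (ob (cokernel (α - (0 : ℂ) • β)) (hK 0))) :
    {l | ¬ σ.P φ (ob (cokernel (α - l • β)) (hK l))}.Countable := by
  refine hPEN _ σ φ (ob G₀ h0) (ob G₁ h1) (obm α h0 h1) (obm β h0 h1)
    (fun l => ob (cokernel (α - l • β)) (hK l)) (fun l => ?_) 0 hs
  rw [obm_sub]
  have := hm l
  obtain ⟨k, hk⟩ := coker_tri (α - l • β) h0 h1 (hK l)
  exact ⟨_, _, hk⟩

/-! ### lines -/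

/-- A curve in `E × F`: `{z} × F` or `E × {w}`. -/
structure Line (τ₀ τ τ' : ℂ) (u : ℂ → ℂ → ℂ) where
  /-- the functions -/
  X : FM τ τ'
  /-- the theta functions of one variable -/
  m : (ℂ → ℂ) → (ℂ × ℂ → ℂ)
  /-- the degrees -/
  δ : Gam →+ Gam2
  /-- the points -/
  P : ℂ → ℂ × ℂ
  mem : ∀ {γ : Gam} {k : ℂ → ℂ}, k ∈ V τ₀ γ → m k ∈ W τ τ' (δ γ)
  mul : ∀ k k', m (k * k') = m k * m k'
  sub : ∀ (k k' : ℂ → ℂ) (l : ℂ), m (k - l • k') = m k - l • m k'
  seq : ∀ (a : Gam2) (q : ℂ) (h : m (u q) ∈ W τ τ' (a + δ (gu q) - a)),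
    ∃ (r : fm X a ⟶ fm (fP τ τ' (P q)) a) (e : _),
      (ShortComplex.mk ((sh τ τ' false).map (fmm X (a := a) (b := a + δ (gu q)) (m (u q)) h))
        ((sh τ τ' false).map r) e).ShortExact
  inj : ∀ (γ : Gam) (k : ℂ → ℂ), k ∈ V τ₀ γ → k ≠ 0 → ∀ (a b : Gam2) (h : m k ∈ W τ τ' (b - a)),
    Mono ((sh τ τ' false).map (fmm X (a := a) (b := b) (m k) h))

namespace Line

variable {τ₀ : ℂ} {u : ℂ → ℂ → ℂ} (L : Line τ₀ τ τ' u)

/-- the sheaf -/
noncomputable def D (a : Gam2) : QC τ τ' false := (sh τ τ' false).obj (fm L.X a)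

/-- multiplication by a function -/
noncomputable def F (k : ℂ → ℂ) (a b : Gam2) (h : L.m k ∈ W τ τ' (b - a)) : L.D b ⟶ L.D a :=
  (sh τ τ' false).map (fmm L.X (a := a) (b := b) (L.m k) h)

theorem F_comp (k k' : ℂ → ℂ) (a b c : Gam2) (h : L.m k ∈ W τ τ' (b - a))
    (h' : L.m k' ∈ W τ τ' (c - b)) (h'' : L.m (k * k') ∈ W τ τ' (c - a)) :
    L.F k' b c h' ≫ L.F k a b h = L.F (k * k') a c h'' := by
  refine ((sh τ τ' false).map_comp (fmm L.X (a := b) (b := c) (L.m k') h')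
    (fmm L.X (a := a) (b := b) (L.m k) h)).symm.trans (congrArg (sh τ τ' false).map ?_)
  refine ObjectProperty.hom_ext _ ?_
  ext x ψ
  refine Subtype.ext (funext fun t => ?_)
  show L.m k (L.X.j t) * (L.m k' (L.X.j t) * (ψ : L.X.U (x.deg - c)).1 t) =
    L.m (k * k') (L.X.j t) * (ψ : L.X.U (x.deg - c)).1 t
  rw [L.mul, Pi.mul_apply, mul_assoc]

theorem F_sub (k k' : ℂ → ℂ) (l : ℂ) (a b : Gam2) (h : L.m k ∈ W τ τ' (b - a))
    (h' : L.m k' ∈ W τ τ' (b - a)) (h'' : L.m (k - l • k') ∈ W τ τ' (b - a)) :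
    L.F (k - l • k') a b h'' = L.F k a b h - l • L.F k' a b h' := by
  have e : (sh τ τ' false).map (fmm L.X (a := a) (b := b) (L.m k) h - l • fmm L.X (a := a) (b := b) (L.m k') h') =
      (sh τ τ' false).map (fmm L.X (a := a) (b := b) (L.m k) h) -
        l • (sh τ τ' false).map (fmm L.X (a := a) (b := b) (L.m k') h') := by
    rw [Functor.map_sub, Functor.map_smul]
  refine (congrArg (sh τ τ' false).map ?_).trans e
  refine ObjectProperty.hom_ext _ ?_
  ext x ψ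
  refine Subtype.ext (funext fun t => ?_)
  show L.m (k - l • k') (L.X.j t) * (ψ : L.X.U (x.deg - b)).1 t =
    L.m k (L.X.j t) * (ψ : L.X.U (x.deg - b)).1 t - l * (L.m k' (L.X.j t) * (ψ : L.X.U (x.deg - b)).1 t)
  rw [L.sub]
  show (L.m k (L.X.j t) - l * L.m k' (L.X.j t)) * _ = _
  ring

/-- the point -/
noncomputable def pq (q : ℂ) (a : Gam2) : QC τ τ' false := (sh τ τ' false).obj (fm (fP τ τ' (L.P q)) a)

theorem seq' (a b : Gam2) (q : ℂ) (hb : b = a + L.δ (gu q)) (h : L.m (u q) ∈ W τ τ' (b - a)) :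
    ∃ (r : L.D a ⟶ L.pq q a) (e : L.F (u q) a b h ≫ r = 0), (ShortComplex.mk (L.F (u q) a b h) r e).ShortExact := by
  subst hb
  obtain ⟨r, e, he⟩ := L.seq a q h
  exact ⟨_, e, he⟩

theorem pq_mem (hsky : ∀ x, DbX τ τ' (skyX τ τ' x)) (q : ℂ) (a : Gam2) : InD (L.pq q a) :=
  (DbX τ τ').prop_of_iso ((DerivedCategory.singleFunctor _ 0).mapIso
    ((sh τ τ' false).mapIso (fPpt (L.P q) a))).symm (hsky (L.P q))

theorem pq_iso (hsky : ∀ x, DbX τ τ' (skyX τ τ' x)) (q : ℂ) (a : Gam2) :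
    Nonempty (ob (L.pq q a) (L.pq_mem hsky q a) ≅
      (⟨skyX τ τ' (L.P q), hsky _⟩ : (DbX τ τ').FullSubcategory)) :=
  ⟨ObjectProperty.isoMk _ ((DerivedCategory.singleFunctor _ 0).mapIso
    ((sh τ τ' false).mapIso (fPpt (L.P q) a)))⟩

theorem pq_nonzero (q : ℂ) (a : Gam2) : ¬ IsZero (L.pq q a) := fun h =>
  pt_nonzero (τ := τ) (τ' := τ') (L.P q) (h.of_iso ((sh τ τ' false).mapIso (fPpt (L.P q) a)).symm)

/-- All the phases on a line are equal. -/
theorem const (hPEN : S_PEN.{w, 1}) (hSUM : S_SUM.{w, 1}) (hSEC : S_SEC) (hτ₀ : 0 < τ₀.im)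
    (hu : TH τ₀ u) (hX : ∀ a, InD (L.D a)) (hsky : ∀ x, DbX τ τ' (skyX τ τ' x))
    (σ : PreStab (DbX τ τ').FullSubcategory) (φ : ℂ → ℝ)
    (hφ : ∀ q, σ.P (φ q) (⟨skyX τ τ' (L.P q), hsky _⟩ : (DbX τ τ').FullSubcategory)) (p : ℂ) :
    {q | φ q ≠ φ p}.Countable := by
  have hph : ∀ q a, σ.P (φ q) (ob (L.pq q a) (L.pq_mem hsky q a)) := fun q a => by
    obtain ⟨e⟩ := L.pq_iso hsky q a
    exact σ.iso e.symm (hφ q)
  have hu0 : ∀ q, u q ≠ 0 := by
    intro q h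
    have h1 : (Set.univ : Set ℂ) ⊆ {z | Cg τ₀ z q} := fun z _ => (hu.zero q z).1 (by rw [h]; rfl)
    exact not_countable_complex ((cg_countable τ₀ q).mono h1)
  obtain ⟨f₁, hf₁, hf₁p⟩ := (hSEC τ₀ hτ₀ u hu).1 (gu p + gu p) p (le_refl _)
  set f₀ : ℂ → ℂ := u p * u p with hf₀def
  have hf₀ : f₀ ∈ V τ₀ (gu p + gu p) := V_mul (hu.mem p) (hu.mem p)
  have hf₀p : f₀ p = 0 := by
    show u p p * u p p = 0
    rw [(hu.zero p p).2 ⟨0, 0, by simp⟩, zero_mul]
  have hf₁0 : f₁ ≠ 0 := fun h => hf₁p (by rw [h]; rfl)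
  have hf₀0 : f₀ ≠ 0 := by
    intro h
    have h1 : (Set.univ : Set ℂ) ⊆ {z | Cg τ₀ z p} := fun z _ => (hu.zero p z).1 (by
      have h2 : u p z * u p z = 0 := congrFun h z
      exact mul_self_eq_zero.1 h2)
    exact not_countable_complex ((cg_countable τ₀ p).mono h1)
  set g : ℂ → ℂ → ℂ := fun l => f₀ - l • f₁ with hg
  have hgm : ∀ l, g l ∈ V τ₀ (gu p + gu p) := fun l =>
    Submodule.sub_mem _ hf₀ (Submodule.smul_mem _ l hf₁)
  have hg0 : ∀ l, g l ≠ 0 := by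
    intro l h
    by_cases hl : l = 0
    · rw [hg, hl] at h
      simp only [zero_smul, sub_zero] at h
      exact hf₀0 h
    · have h1 : f₀ p - l * f₁ p = 0 := congrFun h p
      rw [hf₀p, zero_sub, neg_eq_zero] at h1
      exact (mul_ne_zero hl hf₁p) h1
  -- the degrees
  set b : Gam2 := L.δ (gu p) + L.δ (gu p) with hb
  have hW : ∀ {k : ℂ → ℂ}, k ∈ V τ₀ (gu p + gu p) → L.m k ∈ W τ τ' (b - 0) := by
    intro k hk
    have := L.mem hk
    rwa [map_add, ← hb, ← sub_zero b] at this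
  have hmono : ∀ l : ℂ, Mono (L.F f₀ 0 b (hW hf₀) - l • L.F f₁ 0 b (hW hf₁)) := by
    intro l
    rw [← L.F_sub f₀ f₁ l 0 b (hW hf₀) (hW hf₁) (hW (hgm l))]
    exact L.inj _ _ (hgm l) (hg0 l) _ _ _
  have hK : ∀ l : ℂ, InD (cokernel (L.F f₀ 0 b (hW hf₀) - l • L.F f₁ 0 b (hW hf₁))) := by
    intro l
    have := hmono l
    exact coker_mem _ (hX _) (hX _)
  -- the member `u_p²`
  have h0 : σ.P (φ p) (ob (cokernel (L.F f₀ 0 b (hW hf₀) - (0 : ℂ) • L.F f₁ 0 b (hW hf₁))) (hK 0)) := by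
    have hp1 : L.m (u p) ∈ W τ τ' (L.δ (gu p) - 0) := by
      rw [sub_zero]
      exact L.mem (hu.mem p)
    have hp2 : L.m (u p) ∈ W τ τ' (b - L.δ (gu p)) := by
      rw [hb, add_sub_cancel_right]
      exact L.mem (hu.mem p)
    have ec : L.F f₀ 0 b (hW hf₀) - (0 : ℂ) • L.F f₁ 0 b (hW hf₁) =
        L.F (u p) (L.δ (gu p)) b hp2 ≫ L.F (u p) 0 (L.δ (gu p)) hp1 := by
      rw [zero_smul, sub_zero]
      exact (L.F_comp (u p) (u p) 0 (L.δ (gu p)) b hp1 hp2 (hW hf₀)).symm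
    obtain ⟨r₁, e₁, s₁⟩ := L.seq' (L.δ (gu p)) b p rfl hp2
    obtain ⟨r₂, e₂, s₂⟩ := L.seq' 0 (L.δ (gu p)) p (zero_add _).symm hp1
    have key : ∀ (f : L.D b ⟶ L.D 0) (hf : f = L.F (u p) (L.δ (gu p)) b hp2 ≫ L.F (u p) 0 (L.δ (gu p)) hp1)
        (hk : InD (cokernel f)), σ.P (φ p) (ob (cokernel f) hk) := by
      rintro _ rfl hk
      exact coker_ext hSUM σ (φ p) _ _ r₁ r₂ e₁ e₂ s₁ s₂ (hX _) (hX _) (hX _) (L.pq_mem hsky _ _)
        (L.pq_mem hsky _ _) hk (hph _ _) (hph _ _)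
    exact key _ ec _
  have hbad := pencil hPEN σ (φ p) (hX b) (hX 0) (L.F f₀ 0 b (hW hf₀)) (L.F f₁ 0 b (hW hf₁)) hmono hK h0
  -- the good points
  have hgood : ∀ q : ℂ, f₁ q ≠ 0 →
      σ.P (φ p) (ob (cokernel (L.F f₀ 0 b (hW hf₀) - (f₀ q / f₁ q) • L.F f₁ 0 b (hW hf₁))) (hK _)) →
      φ q = φ p := by
    intro q hq hs
    set l : ℂ := f₀ q / f₁ q with hl
    have hgq : g l q = 0 := by
      show f₀ q - l * f₁ q = 0
      rw [hl]
      field_simp
      ring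
    obtain ⟨k, hk, hgk⟩ := hu.div q _ _ (hgm l) hgq
    have hk0 : k ≠ 0 := by
      intro h
      apply hg0 l
      rw [hgk, h, mul_zero]
    have ecg : L.F f₀ 0 b (hW hf₀) - l • L.F f₁ 0 b (hW hf₁) = L.F (g l) 0 b (hW (hgm l)) :=
      (L.F_sub f₀ f₁ l 0 b (hW hf₀) (hW hf₁) (hW (hgm l))).symm
    have hδ : L.δ (gu p + gu p - gu q) = b - L.δ (gu q) := by
      rw [map_sub, map_add, hb]
    -- the first order
    have hq1 : L.m (u q) ∈ W τ τ' (L.δ (gu q) - 0) := by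
      rw [sub_zero]
      exact L.mem (hu.mem q)
    have hk1 : L.m k ∈ W τ τ' (b - L.δ (gu q)) := by
      rw [← hδ]
      exact L.mem hk
    have hq2 : L.m (u q) ∈ W τ τ' (b - (b - L.δ (gu q))) := by
      rw [sub_sub_cancel]
      exact L.mem (hu.mem q)
    have hk2 : L.m k ∈ W τ τ' (b - L.δ (gu q) - 0) := by
      rw [sub_zero]
      exact hk1
    have hguk : L.m (u q * k) ∈ W τ τ' (b - 0) := by
      rw [← hgk]
      exact hW (hgm l)
    have hkgu : L.m (k * u q) ∈ W τ τ' (b - 0) := by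
      rw [mul_comm]
      exact hguk
    have eA : L.F f₀ 0 b (hW hf₀) - l • L.F f₁ 0 b (hW hf₁) =
        L.F k (L.δ (gu q)) b hk1 ≫ L.F (u q) 0 (L.δ (gu q)) hq1 := by
      rw [ecg, L.F_comp (u q) k 0 (L.δ (gu q)) b hq1 hk1 hguk]
      congr 1
    have eB : L.F f₀ 0 b (hW hf₀) - l • L.F f₁ 0 b (hW hf₁) =
        L.F (u q) (b - L.δ (gu q)) b hq2 ≫ L.F k 0 (b - L.δ (gu q)) hk2 := by
      rw [ecg, L.F_comp k (u q) 0 (b - L.δ (gu q)) b hk2 hq2 hkgu]
      congr 1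
      rw [hgk, mul_comm]
    set f := L.F f₀ 0 b (hW hf₀) - l • L.F f₁ 0 b (hW hf₁) with hf
    refine le_antisymm ?_ ?_
    · -- a nonzero map from the point
      obtain ⟨r, e, s⟩ := L.seq' (b - L.δ (gu q)) b q (sub_add_cancel _ _).symm hq2
      have hz : L.F (u q) (b - L.δ (gu q)) b hq2 ≫ (L.F k 0 (b - L.δ (gu q)) hk2 ≫ cokernel.π f) = 0 := by
        rw [← Category.assoc, ← eB, cokernel.condition]
      have hep : Epi r := s.epi_g
      obtain ⟨c, hc⟩ : ∃ c : L.pq q (b - L.δ (gu q)) ⟶ cokernel f,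
          r ≫ c = L.F k 0 (b - L.δ (gu q)) hk2 ≫ cokernel.π f :=
        ⟨s.exact.desc _ hz, s.exact.g_desc _ hz⟩
      have hc0 : c ≠ 0 := by
        intro h
        rw [h, comp_zero] at hc
        have hmk : Mono (L.F k 0 (b - L.δ (gu q)) hk2) := L.inj _ _ hk hk0 _ _ _
        have hmf : Mono f := hmono l
        have hex : (ShortComplex.mk f (cokernel.π f) (cokernel.condition f)).Exact :=
          ShortComplex.exact_cokernel f
        obtain ⟨t, ht⟩ : ∃ t : L.D (b - L.δ (gu q)) ⟶ L.D b, t ≫ f = L.F k 0 (b - L.δ (gu q)) hk2 :=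
          ⟨hex.lift _ hc.symm, hex.lift_f _ hc.symm⟩
        have h1 : t ≫ L.F (u q) (b - L.δ (gu q)) b hq2 = 𝟙 _ := by
          rw [← cancel_mono (L.F k 0 (b - L.δ (gu q)) hk2), Category.assoc, ← eB, ht, Category.id_comp]
        have h2 : r = 0 := by
          have h3 : (t ≫ L.F (u q) (b - L.δ (gu q)) b hq2) ≫ r = 0 := by
            rw [Category.assoc, e, comp_zero]
          rw [h1, Category.id_comp] at h3
          exact h3
        apply L.pq_nonzero q (b - L.δ (gu q))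
        rw [IsZero.iff_id_eq_zero, ← cancel_epi r, h2, zero_comp, zero_comp]
      by_contra hlt
      rw [not_le] at hlt
      exact obm_ne (L.pq_mem hsky _ _) (hK l) hc0 (σ.hom hlt (hph q _) hs _)
    · -- a nonzero map to the point
      obtain ⟨r, e, s⟩ := L.seq' 0 (L.δ (gu q)) q (zero_add _).symm hq1
      have hep : Epi r := s.epi_g
      have hz : f ≫ r = 0 := by
        rw [eA, Category.assoc, e, comp_zero]
      have hd : cokernel.π f ≫ cokernel.desc f r hz = r := cokernel.π_desc _ _ _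
      have hd0 : cokernel.desc f r hz ≠ 0 := by
        intro h
        rw [h, comp_zero] at hd
        apply L.pq_nonzero q 0
        rw [IsZero.iff_id_eq_zero, ← cancel_epi r, ← hd, zero_comp, zero_comp]
      by_contra hlt
      rw [not_le] at hlt
      exact obm_ne (hK l) (L.pq_mem hsky _ _) hd0 (σ.hom hlt hs (hph q _) _)
  -- countability
  have hsub : {q | φ q ≠ φ p} ⊆ {q | f₁ q = 0} ∪
      ⋃ l ∈ {l | ¬ σ.P (φ p) (ob (cokernel (L.F f₀ 0 b (hW hf₀) - l • L.F f₁ 0 b (hW hf₁))) (hK l))},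
        {q | g l q = 0} := by
    intro q hq
    by_cases h1 : f₁ q = 0
    · exact Or.inl h1
    · right
      simp only [Set.mem_iUnion]
      refine ⟨f₀ q / f₁ q, fun h2 => hq (hgood q h1 h2), ?_⟩
      show f₀ q - f₀ q / f₁ q * f₁ q = 0
      field_simp
      ring
  refine Set.Countable.mono hsub ((zeros_countable hSEC hτ₀ hu hf₁ hf₁0).union ?_)
  exact hbad.biUnion fun l _ => zeros_countable hSEC hτ₀ hu (hgm l) (hg0 l)

end Line

/-! ### the two families of lines -/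

theorem cancel_fun {k ψ : ℂ → ℂ} (hk : Differentiable ℂ k) (hψ : Differentiable ℂ ψ) (hk0 : k ≠ 0)
    (h : ∀ t, k t * ψ t = 0) : ∀ t, ψ t = 0 := by
  obtain ⟨z₀, hz₀⟩ : ∃ z₀, k z₀ ≠ 0 := by
    by_contra hc
    push Not at hc
    exact hk0 (funext hc)
  have h1 : ∀ᶠ t in nhds z₀, ψ t = (fun _ => (0 : ℂ)) t := by
    filter_upwards [hk.continuous.continuousAt.eventually_ne hz₀] with t ht
    exact (mul_eq_zero.1 (h t)).resolve_left ht
  have h2 : AnalyticOnNhd ℂ ψ Set.univ := fun z _ => hψ.analyticAt z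
  have h3 : AnalyticOnNhd ℂ (fun _ : ℂ => (0 : ℂ)) Set.univ := fun z _ => analyticAt_const
  have h4 := h2.eq_of_eventuallyEq h3 h1
  exact fun t => congrFun h4 t

theorem mono_of_inj {M N : GM τ τ' false} (f : M ⟶ N)
    (h : ∀ (c : Ob τ τ' false) (x : M.obj.obj c), f.hom.app c x = 0 → x = 0) :
    Mono ((sh τ τ' false).map f) := by
  have h1 : Mono f.hom := by
    rw [mono_iff]
    intro c
    exact (injective_iff_map_eq_zero (f.hom.app c).hom).2 (h c)
  have h2 : Mono ((lin τ τ' false).ι.map f) := h1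
  have h3 : Mono f := (lin τ τ' false).ι.mono_of_mono_map h2
  infer_instance

/-- the line `E × {w}` -/
noncomputable def lineE (hSEQ : S_SEQ) (hτ : 0 < τ.im) (hτ' : 0 < τ'.im) {u v : ℂ → ℂ → ℂ}
    (hu : TH τ u) (hv : TH τ' v) (w : ℂ) : Line τ τ τ' u where
  X := fL' τ τ' w
  m k := pr k 1
  δ := AddMonoidHom.inl Gam Gam
  P q := (q, w)
  mem hk := W_pr hk V_one
  mul k k' := by
    funext p
    show (k p.1 * k' p.1) * 1 = (k p.1 * 1) * (k' p.1 * 1)
    ring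
  sub k k' l := by
    funext p
    show (k p.1 - l * k' p.1) * 1 = k p.1 * 1 - l * (k' p.1 * 1)
    ring
  seq a q h := by
    obtain ⟨e, he⟩ := (hSEQ τ τ' hτ hτ' u v hu hv a q w).2.2.2 h
    exact ⟨_, e, he⟩
  inj γ k hk hk0 a b h := by
    refine mono_of_inj _ fun c x hx => ?_
    have h1 : ∀ t : ℂ, (k t * 1) * (x : (fL' τ τ' w).U (c.deg - b)).1 t = 0 := fun t =>
      congrFun (congrArg Subtype.val hx) t
    refine Subtype.ext (funext fun t => ?_)
    exact cancel_fun hk.1 (x : (fL' τ τ' w).U (c.deg - b)).2.1 hk0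
      (fun t => by have := h1 t; rwa [mul_one] at this) t

/-- the line `{z} × F` -/
noncomputable def lineF (hSEQ : S_SEQ) (hτ : 0 < τ.im) (hτ' : 0 < τ'.im) {u v : ℂ → ℂ → ℂ}
    (hu : TH τ u) (hv : TH τ' v) (z : ℂ) : Line τ' τ τ' v where
  X := fL τ τ' z
  m k := pr 1 k
  δ := AddMonoidHom.inr Gam Gam
  P q := (z, q)
  mem hk := W_pr V_one hk
  mul k k' := by
    funext p
    show 1 * (k p.2 * k' p.2) = (1 * k p.2) * (1 * k' p.2)
    ring
  sub k k' l := by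
    funext p
    show 1 * (k p.2 - l * k' p.2) = 1 * k p.2 - l * (1 * k' p.2)
    ring
  seq a q h := by
    obtain ⟨e, he⟩ := (hSEQ τ τ' hτ hτ' u v hu hv a z q).2.2.1 h
    exact ⟨_, e, he⟩
  inj γ k hk hk0 a b h := by
    refine mono_of_inj _ fun c x hx => ?_
    have h1 : ∀ t : ℂ, (1 * k t) * (x : (fL τ τ' z).U (c.deg - b)).1 t = 0 := fun t =>
      congrFun (congrArg Subtype.val hx) t
    refine Subtype.ext (funext fun t => ?_)
    exact cancel_fun hk.1 (x : (fL τ τ' z).U (c.deg - b)).2.1 hk0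
      (fun t => by have := h1 t; rwa [one_mul] at this) t

theorem two_countable {φ : ℂ → ℝ} (h : ∀ p, {q | φ q ≠ φ p}.Countable) (p p' : ℂ) : φ p = φ p' := by
  by_contra hne
  have h1 : (Set.univ : Set ℂ) ⊆ {q | φ q ≠ φ p} ∪ {q | φ q ≠ φ p'} := by
    intro q _
    by_cases hq : φ q = φ p
    · right
      intro hq'
      exact hne (hq.symm.trans hq')
    · exact Or.inl hq
  exact not_countable_complex (((h p).union (h p')).mono h1)

/-- **C2.** -/
theorem p_C2 (hPEN : S_PEN.{w, 1}) (hSUM : S_SUM.{w, 1}) (hSEQ : S_SEQ) (hSEC : S_SEC) (hTH : S_TH) :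
    S_C2.{w} := by
  intro τ τ' hτ hτ' _ hsky σ hst
  obtain ⟨u, hu⟩ := hTH τ hτ
  obtain ⟨v, hv⟩ := hTH τ' hτ'
  choose φ hφ using hst
  have hE : ∀ (w p p' : ℂ), φ (p, w) = φ (p', w) := fun w =>
    two_countable (φ := fun q => φ (q, w)) fun p =>
      (lineE hSEQ hτ hτ' hu hv w).const hPEN hSUM hSEC hτ hu
        (fun a => fL'_mem hSEQ hτ hτ' hu hv w a) hsky σ (fun q => φ (q, w)) (fun q => (hφ (q, w)).1) p
  have hF : ∀ (z p p' : ℂ), φ (z, p) = φ (z, p') := fun z =>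
    two_countable (φ := fun q => φ (z, q)) fun p =>
      (lineF hSEQ hτ hτ' hu hv z).const hPEN hSUM hSEC hτ' hv
        (fun a => fL_mem hSEQ hτ hτ' hu hv z a) hsky σ (fun q => φ (z, q)) (fun q => (hφ (z, q)).1) p
  refine ⟨φ (0, 0), fun x => ?_⟩
  have e : φ x = φ (0, 0) := (hE x.2 x.1 0).trans (hF 0 x.2 0)
  rw [← e]
  exact hφ x

end Run7.h67.BEG
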