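import Pool.Agent.Run7.h67.BE.Gen

/-!
# LOC (h354): maps from a line bundle to a complex in negative degrees are locally zero
-/

set_option autoImplicit false
set_option linter.unusedSectionVars false
set_option linter.unusedVariables false

open CategoryTheory CategoryTheory.Limits Pretriangulated Complex ZeroObject
open Run7.h354.BE

namespace Run7.h67.BEG

universe w v u

section abs

variable {A : Type u} [Category.{v} A] [Abelian A] [HasDerivedCategory.{w} A]

open DerivedCategory in
/-- A map from an object to a complex in negative degrees becomes zero on an epimorphism. -/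
theorem exists_epi_comp_zero (K : DerivedCategory A) (hK : K.IsLE (-1)) (R : A)
    (φ : (singleFunctor A 0).obj R ⟶ K) :
    ∃ (N : A) (p : N ⟶ R), Epi p ∧ (singleFunctor A 0).map p ≫ φ = 0 := by
  obtain ⟨Y, hY, ⟨e⟩⟩ := DerivedCategory.exists_iso_Q_obj_of_isLE K (-1)
  let S := HomologicalComplex.single A (ComplexShape.up ℤ) 0
  let φ' : Q.obj (S.obj R) ⟶ Q.obj Y := φ ≫ e.hom
  have hS : CochainComplex.IsStrictlyLE (S.obj R) 0 := inferInstanceAs
    (((CochainComplex.singleFunctor A 0).obj R).IsStrictlyLE 0)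
  obtain ⟨X', hX', s, hs, g, hφ'⟩ := right_fac_of_isStrictlyLE φ' 0
  have hz : IsZero (X'.X 1) := X'.isZero_of_isStrictlyLE 0 1
  let i : S.obj (X'.X 0) ⟶ X' := HomologicalComplex.mkHomFromSingle (𝟙 (X'.X 0)) (by
    intro k hk
    have hk1 : k = 1 := by
      have : (0 : ℤ) + 1 = k := hk
      omega
    subst hk1
    exact hz.eq_of_tgt _ _)
  let q : S.obj R ⟶ S.obj R := 𝟙 _
  let p : X'.X 0 ⟶ R := s.f 0 ≫ (HomologicalComplex.singleObjXSelf (ComplexShape.up ℤ) 0 R).hom
  have hip : i ≫ s = S.map p := by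
    refine HomologicalComplex.from_single_hom_ext ?_
    rw [HomologicalComplex.comp_f, HomologicalComplex.mkHomFromSingle_f, Category.comp_id]
    rw [HomologicalComplex.single_map_f_self]
    show _ = _ ≫ (s.f 0 ≫ _) ≫ _
    rw [Category.assoc, Iso.hom_inv_id, Category.comp_id]
  have hig : i ≫ g = 0 := by
    refine HomologicalComplex.from_single_hom_ext ?_
    exact (Y.isZero_of_isStrictlyLE (-1) 0).eq_of_tgt _ _
  refine ⟨X'.X 0, p, ?_, ?_⟩
  · rw [Preadditive.epi_iff_cancel_zero]
    intro T t ht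
    have h1 : s ≫ S.map t = 0 := by
      refine HomologicalComplex.to_single_hom_ext ?_
      rw [HomologicalComplex.comp_f, HomologicalComplex.single_map_f_self, HomologicalComplex.zero_f]
      have h2 : s.f 0 ≫ (HomologicalComplex.singleObjXSelf (ComplexShape.up ℤ) 0 R).hom ≫ t = 0 := by
        rw [← Category.assoc]
        exact ht
      rw [← Category.assoc, ← Category.assoc, Category.assoc _ _ t, h2, zero_comp]
    have h2 : Q.map (S.map t) = 0 := by
      rw [← cancel_epi (Q.map s), ← Q.map_comp, h1, Q.map_zero, comp_zero]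
    apply (singleFunctor A 0).map_injective
    rw [Functor.map_zero]
    exact h2
  · have h1 : Q.map (S.map p) ≫ φ' = 0 := by
      rw [← hip, Q.map_comp, hφ', Category.assoc, IsIso.hom_inv_id_assoc, ← Q.map_comp, hig, Q.map_zero]
    have h2 : ((singleFunctor A 0).map p ≫ φ) ≫ e.hom = 0 := by
      rw [Category.assoc]
      exact h1
    rw [← cancel_mono e.hom, h2, zero_comp]

end abs

variable {τ τ' : ℂ}

theorem p_LOC : S_LOC.{w} := by
  intro τ τ' _ K hK a φ z w
  obtain ⟨N, p, hp, h0⟩ := exists_epi_comp_zero K hK ((sh τ τ' false).obj (fm (fW τ τ') a)) φ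
  obtain ⟨M, ⟨e⟩⟩ := sh_obj N
  obtain ⟨M', s, q, hs, hq⟩ := exists_frac (e.hom ≫ p)
  have hepi : Epi ((sh τ τ' false).map q) := by
    rw [← hq]
    infer_instance
  obtain ⟨γ, δ, k, h, hk, hh, h1, h2, m, hm⟩ := (epi_sh q).1 hepi ⟨a⟩ (gen a : W τ τ' (a - a)) z w
  have hf : pr k h ∈ W τ τ' (a + (γ, δ) - a) := by
    rw [add_sub_cancel_left]
    exact W_pr hk hh
  refine ⟨γ, δ, k, h, hk, hh, hf, h1, h2, ?_⟩
  have e1 : fmm (fW τ τ') (a := a) (b := a + (γ, δ)) (pr k h) hf = frm M' (a + (γ, δ)) m ≫ q := by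
    refine hom_ext ?_
    rw [frm_comp, frm_gen]
    exact (hm.trans rfl).symm
  have e3 : (sh τ τ' false).map (fmm (fW τ τ') (a := a) (b := a + (γ, δ)) (pr k h) hf) =
      ((sh τ τ' false).map (frm M' (a + (γ, δ)) m) ≫ (sh τ τ' false).map s ≫ e.hom) ≫ p := by
    rw [e1, Functor.map_comp, ← hq]
    simp only [Category.assoc]
  let φ₁ : (DerivedCategory.singleFunctor (QC τ τ' false) 0).obj
    ((sh τ τ' false).obj (fm (fW τ τ') a)) ⟶ K := φ
  have h0' : (DerivedCategory.singleFunctor (QC τ τ' false) 0).map p ≫ φ₁ = 0 := h0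
  show (DerivedCategory.singleFunctor _ 0).map ((sh τ τ' false).map
      (fmm (fW τ τ') (a := a) (b := a + (γ, δ)) (pr k h) hf)) ≫ φ₁ = 0
  rw [e3, Functor.map_comp, Category.assoc, h0', comp_zero]

end Run7.h67.BEG
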