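import Pool.Agent.Run7.h67.BE.Gen

/-!
# PTS (h354): the skyscraper sheaves
-/

set_option autoImplicit false
set_option linter.unusedSectionVars false
set_option linter.unusedVariables false

open CategoryTheory CategoryTheory.Limits Pretriangulated Complex ZeroObject
open Run7.h354.BE

namespace Run7.h67.BEG

universe w

variable {τ τ' : ℂ}

/-! ### the line bundles and the perfect complexes -/

theorem lb_mem [HasDerivedCategory.{w} (QC τ τ' false)] (a : Gam2) : DbX τ τ' (lb τ τ' a) := by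
  unfold DbX
  exact ObjectProperty.le_triangEnvelope _ _ ⟨a⟩

theorem sing3 [HasDerivedCategory.{w} (QC τ τ' false)] {S : ShortComplex (QC τ τ' false)}
    (hS : S.ShortExact) (h1 : DbX τ τ' ((DerivedCategory.singleFunctor _ 0).obj S.X₁))
    (h2 : DbX τ τ' ((DerivedCategory.singleFunctor _ 0).obj S.X₂)) :
    DbX τ τ' ((DerivedCategory.singleFunctor _ 0).obj S.X₃) :=
  (DbX τ τ').ext_of_isTriangulatedClosed₃ _ hS.singleTriangle_distinguished h1 h2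

theorem mem_W_sub {a b : Gam2} {f : ℂ × ℂ → ℂ} (hf : f ∈ W τ τ' b) : f ∈ W τ τ' (a + b - a) := by
  rwa [add_sub_cancel_left]

theorem fL_mem [HasDerivedCategory.{w} (QC τ τ' false)] (hSEQ : S_SEQ) (hτ : 0 < τ.im) (hτ' : 0 < τ'.im)
    {u v : ℂ → ℂ → ℂ} (hu : TH τ u) (hv : TH τ' v) (z : ℂ) (a : Gam2) :
    DbX τ τ' ((DerivedCategory.singleFunctor _ 0).obj ((sh τ τ' false).obj (fm (fL τ τ' z) a))) := by
  obtain ⟨e, he⟩ := (hSEQ τ τ' hτ hτ' u v hu hv a z 0).1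
    (mem_W_sub (W_pr (hu.mem z) (V_one (τ := τ'))))
  exact sing3 he (lb_mem _) (lb_mem _)

theorem fL'_mem [HasDerivedCategory.{w} (QC τ τ' false)] (hSEQ : S_SEQ) (hτ : 0 < τ.im) (hτ' : 0 < τ'.im)
    {u v : ℂ → ℂ → ℂ} (hu : TH τ u) (hv : TH τ' v) (w : ℂ) (a : Gam2) :
    DbX τ τ' ((DerivedCategory.singleFunctor _ 0).obj ((sh τ τ' false).obj (fm (fL' τ τ' w) a))) := by
  obtain ⟨e, he⟩ := (hSEQ τ τ' hτ hτ' u v hu hv a 0 w).2.1
    (mem_W_sub (W_pr (V_one (τ := τ)) (hv.mem w)))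
  exact sing3 he (lb_mem _) (lb_mem _)

theorem skyX_mem [HasDerivedCategory.{w} (QC τ τ' false)] (hSEQ : S_SEQ) (hτ : 0 < τ.im) (hτ' : 0 < τ'.im)
    {u v : ℂ → ℂ → ℂ} (hu : TH τ u) (hv : TH τ' v) (x : ℂ × ℂ) : DbX τ τ' (skyX τ τ' x) := by
  obtain ⟨z, w⟩ := x
  obtain ⟨e, he⟩ := (hSEQ τ τ' hτ hτ' u v hu hv 0 z w).2.2.1
    (mem_W_sub (W_pr (V_one (τ := τ)) (hv.mem w)))
  have h1 := sing3 he (fL_mem hSEQ hτ hτ' hu hv z _) (fL_mem hSEQ hτ hτ' hu hv z _)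
  exact (DbX τ τ').prop_of_iso
    ((DerivedCategory.singleFunctor _ 0).mapIso ((sh τ τ' false).mapIso (fPpt (z, w) 0))) h1

/-! ### the skyscraper modules -/

/-- the evaluation -/
noncomputable def evm (x : ℂ × ℂ) (a : Gam2) (r : ℂ) : fm (fW τ τ') a ⟶ pt τ τ' x :=
  frm (pt τ τ' x) a r

theorem evm_app (x : ℂ × ℂ) (a : Gam2) (r : ℂ) (c : Ob τ τ' false) (k : W τ τ' (c.deg - a)) :
    (evm x a r).hom.app c k = k.1 x * r := rfl

/-- no element of the skyscraper module is torsion -/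
theorem pt_TE {x : ℂ × ℂ} {a : Ob τ τ' false} {r : ℂ} (h : TE (pt τ τ' x).obj (a := a) r) : r = 0 := by
  obtain ⟨γ, δ, g, k, hg, hk, h1, h2, h3⟩ := h x.1 x.2
  have h4 : pr g k x * r = 0 := h3
  exact (mul_eq_zero.1 h4).resolve_left (mul_ne_zero h1 h2)

/-- The evaluation is an epimorphism of sheaves. -/
theorem evm_epi (hSEC : S_SEC) (hτ : 0 < τ.im) (hτ' : 0 < τ'.im) {u v : ℂ → ℂ → ℂ} (hu : TH τ u)
    (hv : TH τ' v) (x : ℂ × ℂ) (a : Gam2) {r : ℂ} (hr : r ≠ 0) :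
    Epi ((sh τ τ' false).map (evm x a r)) := by
  rw [epi_sh]
  intro b y z w
  obtain ⟨N, hN⟩ : ∃ N : ℤ, 2 ≤ N ∧ 2 ≤ b.deg.1.1 + N - a.1.1 ∧ 2 ≤ b.deg.2.1 + N - a.2.1 :=
    ⟨max 2 (max (2 - b.deg.1.1 + a.1.1) (2 - b.deg.2.1 + a.2.1)), by omega, by omega, by omega⟩
  obtain ⟨k, hk, hk0⟩ := (hSEC τ hτ u hu).1 (N, 0) z hN.1
  obtain ⟨h, hh, hh0⟩ := (hSEC τ' hτ' v hv).1 (N, 0) w hN.1
  refine ⟨(N, 0), (N, 0), k, h, hk, hh, hk0, hh0, ?_⟩
  obtain ⟨k', hk', hk0'⟩ := (hSEC τ hτ u hu).1 ((b.deg + ((N, 0), (N, 0)) - a).1) x.1 hN.2.1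
  obtain ⟨h', hh', hh0'⟩ := (hSEC τ' hτ' v hv).1 ((b.deg + ((N, 0), (N, 0)) - a).2) x.2 hN.2.2
  have hm : pr k' h' ∈ W τ τ' (b.deg + ((N, 0), (N, 0)) - a) := W_pr hk' hh'
  have hne : pr k' h' x ≠ 0 := mul_ne_zero hk0' hh0'
  let y' : ℂ := y
  let c : ℂ := (pr k' h' x * r)⁻¹ * (pr k h x * y')
  refine ⟨(⟨c • pr k' h', Submodule.smul_mem _ c hm⟩ : W τ τ' (b.deg + ((N, 0), (N, 0)) - a)), ?_⟩
  rw [evm_app]
  show (c * pr k' h' x) * r = pr k h x * y'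
  show ((pr k' h' x * r)⁻¹ * (pr k h x * y') * pr k' h' x) * r = pr k h x * y'
  field_simp

theorem pt_nonzero (x : ℂ × ℂ) : ¬ IsZero ((sh τ τ' false).obj (pt τ τ' x)) := by
  rw [isZero_sh, tors_iff]
  intro h
  have := pt_TE (h ⟨0⟩ (1 : ℂ))
  exact one_ne_zero this

theorem evm_ne (hSEC : S_SEC) (hτ : 0 < τ.im) (hτ' : 0 < τ'.im) {u v : ℂ → ℂ → ℂ} (hu : TH τ u)
    (hv : TH τ' v) (x : ℂ × ℂ) (a : Gam2) {r : ℂ} (hr : r ≠ 0) :
    (sh τ τ' false).map (evm x a r) ≠ 0 := by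
  intro h
  have h1 := evm_epi hSEC hτ hτ' hu hv x a hr
  rw [h] at h1
  have h2 : 𝟙 ((sh τ τ' false).obj (pt τ τ' x)) = 0 := by
    rw [← cancel_epi (0 : (sh τ τ' false).obj (fm (fW τ τ') a) ⟶ (sh τ τ' false).obj (pt τ τ' x))]
    rw [zero_comp, zero_comp]
  exact pt_nonzero x ((IsZero.iff_id_eq_zero _).2 h2)

theorem evm_smul (x : ℂ × ℂ) (a : Gam2) (r : ℂ) :
    evm (τ := τ) (τ' := τ') x a r = r • evm x a 1 := by
  refine ObjectProperty.hom_ext _ ?_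
  ext c k
  show (k : W τ τ' (c.deg - a)).1 x * r = r * ((k : W τ τ' (c.deg - a)).1 x * 1)
  ring

/-- every nonzero map to a skyscraper sheaf is epi -/
theorem to_pt_epi (hSEC : S_SEC) (hτ : 0 < τ.im) (hτ' : 0 < τ'.im) {u v : ℂ → ℂ → ℂ} (hu : TH τ u)
    (hv : TH τ' v) (x : ℂ × ℂ) {N : QC τ τ' false} (f : N ⟶ (sh τ τ' false).obj (pt τ τ' x))
    (hf : f ≠ 0) : Epi f := by
  obtain ⟨M, ⟨e⟩⟩ := sh_obj N
  have h1 : e.hom ≫ f ≠ 0 := by
    intro h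
    apply hf
    rw [← cancel_epi e.hom, h, comp_zero]
  obtain ⟨a, i, n, hi, hn⟩ := detect _ h1
  have hn0 : (n : ℂ) ≠ 0 := by
    intro h0
    apply hn
    have e0 : n = (0 : (pt τ τ' x).obj.obj ⟨a⟩) := h0
    rw [e0]
    intro z w
    exact ⟨0, 0, 1, 1, V_one, V_one, one_ne_zero, one_ne_zero, map_zero _⟩
  have h2 : Epi ((i ≫ e.hom) ≫ f) := by
    rw [Category.assoc, hi]
    exact evm_epi hSEC hτ hτ' hu hv x a hn0
  exact epi_of_epi (i ≫ e.hom) f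

theorem pt_simple (hSEC : S_SEC) (hτ : 0 < τ.im) (hτ' : 0 < τ'.im) {u v : ℂ → ℂ → ℂ} (hu : TH τ u)
    (hv : TH τ' v) (x : ℂ × ℂ) : Simple ((sh τ τ' false).obj (pt τ τ' x)) where
  mono_isIso_iff_nonzero {Y} f _ := by
    constructor
    · intro h h0
      subst h0
      have h1 : 𝟙 ((sh τ τ' false).obj (pt τ τ' x)) = 0 := by
        rw [← cancel_epi (0 : Y ⟶ (sh τ τ' false).obj (pt τ τ' x)), zero_comp, zero_comp]
      exact pt_nonzero x ((IsZero.iff_id_eq_zero _).2 h1)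
    · intro h
      have := to_pt_epi hSEC hτ hτ' hu hv x f h
      exact isIso_of_mono_of_epi f

/-- maps from a line bundle to a skyscraper sheaf -/
theorem to_pt (hSAT : S_SAT) (x : ℂ × ℂ) (a : Gam2)
    (f : (sh τ τ' false).obj (fm (fW τ τ') a) ⟶ (sh τ τ' false).obj (pt τ τ' x)) :
    ∃ r : ℂ, f = r • (sh τ τ' false).map (evm x a 1) := by
  obtain ⟨ψ, hψ, h⟩ := (hSAT τ τ' (fP τ τ' x) a 0).1
    (f ≫ (sh τ τ' false).map (fPpt (τ := τ) (τ' := τ') x 0).inv)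
  refine ⟨ψ (), ?_⟩
  have h1 : f = (sh τ τ' false).map (fmg (fP τ τ' x) ψ hψ ≫ (fPpt (τ := τ) (τ' := τ') x 0).hom) := by
    rw [Functor.map_comp, ← h, Category.assoc, ← Functor.map_comp, Iso.inv_hom_id,
      CategoryTheory.Functor.map_id, Category.comp_id]
  rw [h1, ← Functor.map_smul]
  congr 1
  refine ObjectProperty.hom_ext _ ?_
  ext c k
  show (k : W τ τ' (c.deg - a)).1 x * ψ () = ψ () * ((k : W τ τ' (c.deg - a)).1 x * 1)
  ring

theorem p_PTS (hSEQ : S_SEQ) (hSEC : S_SEC) (hSAT : S_SAT) (hTH : S_TH) : S_PTS.{w} := by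
  intro τ τ' hτ hτ' _ x
  obtain ⟨u, hu⟩ := hTH τ hτ
  obtain ⟨v, hv⟩ := hTH τ' hτ'
  have key : ∀ (y : ℂ × ℂ) (f : (sh τ τ' false).obj (pt τ τ' x) ⟶ (sh τ τ' false).obj (pt τ τ' y)) (a : Gam2),
      ∃ r : ℂ, (sh τ τ' false).map (evm x a 1) ≫ f = r • (sh τ τ' false).map (evm y a 1) :=
    fun y f a => to_pt hSAT y a _
  have hepi := fun a => evm_epi hSEC hτ hτ' hu hv x a (one_ne_zero (α := ℂ))
  refine ⟨skyX_mem hSEQ hτ hτ' hu hv x, pt_simple hSEC hτ hτ' hu hv x, fun f => ?_, fun y hy f => ?_⟩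
  · obtain ⟨r, hr⟩ := key x f 0
    refine ⟨r, ?_⟩
    have := hepi 0
    rw [← cancel_epi ((sh τ τ' false).map (evm x 0 1)), hr, Linear.comp_smul, Category.comp_id]
  · -- a function which is zero at `x` and not at `y`
    obtain ⟨b, k, hk, hkx, hky⟩ : ∃ (b : Gam2) (k : ℂ × ℂ → ℂ), k ∈ W τ τ' b ∧ k x = 0 ∧ k y ≠ 0 := by
      rcases hy with h | h
      · refine ⟨(gu x.1, 0), pr (u x.1) 1, W_pr (hu.mem _) V_one, ?_, ?_⟩
        · show u x.1 x.1 * 1 = 0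
          rw [(hu.zero _ _).2 ⟨0, 0, by simp⟩, zero_mul]
        · show u x.1 y.1 * 1 ≠ 0
          rw [mul_one, ne_eq, hu.zero]
          rintro ⟨m, n, e⟩
          refine h ⟨-m, -n, ?_⟩
          push_cast
          linear_combination -e
      · refine ⟨(0, gu x.2), pr 1 (v x.2), W_pr V_one (hv.mem _), ?_, ?_⟩
        · show 1 * v x.2 x.2 = 0
          rw [(hv.zero _ _).2 ⟨0, 0, by simp⟩, mul_zero]
        · show 1 * v x.2 y.2 ≠ 0
          rw [one_mul, ne_eq, hv.zero]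
          rintro ⟨m, n, e⟩
          refine h ⟨-m, -n, ?_⟩
          push_cast
          linear_combination -e
    have hk' : k ∈ W τ τ' (0 + b - 0) := mem_W_sub hk
    obtain ⟨r, hr⟩ := key y f 0
    have e1 : ∀ p : ℂ × ℂ, fmm (fW τ τ') (a := 0) (b := 0 + b) k hk' ≫ evm p 0 1 = k p • evm p (0 + b) 1 := by
      intro p
      refine ObjectProperty.hom_ext _ ?_
      ext c l
      show (k p * (l : W τ τ' (c.deg - (0 + b))).1 p) * 1 = k p * ((l : W τ τ' (c.deg - (0 + b))).1 p * 1)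
      ring
    have h2 : (sh τ τ' false).map (fmm (fW τ τ') (a := 0) (b := 0 + b) k hk') ≫
        ((sh τ τ' false).map (evm x 0 1) ≫ f) = 0 := by
      rw [← Category.assoc, ← Functor.map_comp, e1, hkx, zero_smul, Functor.map_zero, zero_comp]
    rw [hr, Linear.comp_smul, ← Functor.map_comp, e1, Functor.map_smul, smul_smul] at h2
    have h3 : r * k y = 0 := by
      by_contra h0
      exact evm_ne hSEC hτ hτ' hu hv y (0 + b) (one_ne_zero (α := ℂ)) ((smul_eq_zero.1 h2).resolve_left h0)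
    have hr0 : r = 0 := (mul_eq_zero.1 h3).resolve_right hky
    have := hepi 0
    rw [← cancel_epi ((sh τ τ' false).map (evm x 0 1)), hr, hr0, zero_smul, comp_zero]

end Run7.h67.BEG
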