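import Pool.Agent.Run7.h354.BE.Stm2

/-!
# Maps from line bundles (h354, pieces PTS, LOC, C2)
-/

set_option autoImplicit false
set_option linter.unusedSectionVars false
set_option linter.unusedVariables false

open CategoryTheory CategoryTheory.Limits Complex ZeroObject
open Run7.h354.BE

namespace Run7.h67.BEG

variable {τ τ' : ℂ}

theorem map_mul_zero {N : Ob τ τ' false ⥤ ModuleCat.{0} ℂ} (hN : lin τ τ' false N)
    {a b : Ob τ τ' false} (h0 : (0 : ℂ × ℂ → ℂ) ∈ W τ τ' (b.deg - a.deg)) (x : N.obj a) :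
    N.map (mul 0 h0) x = 0 := by
  have h := lin_mul hN (-1) h0 h0 h0 (by simp) x
  rw [neg_one_smul, neg_add_cancel] at h
  exact h

theorem eq_mul {a b : Ob τ τ' false} (φ : a ⟶ b) : φ = mul (φ : Mor a b).f (f_mem φ) :=
  Mor.ext (e_false φ) rfl

/-- the value of the map on a function -/
noncomputable def frL (M : GM τ τ' false) (a : Gam2) (m : M.obj.obj ⟨a⟩) (c : Ob τ τ' false) :
    W τ τ' (c.deg - a) →ₗ[ℂ] M.obj.obj c where
  toFun k := M.obj.map (mul (a := (⟨a⟩ : Ob τ τ' false)) (b := c) k.1 k.2) m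
  map_add' k k' := by
    have h := lin_mul M.property (a := (⟨a⟩ : Ob τ τ' false)) (b := c) 1 k.2 k'.2 (k + k').2
      (by rw [one_smul]; rfl) m
    rw [one_smul] at h
    exact h
  map_smul' r k := by
    have h := lin_mul M.property (a := (⟨a⟩ : Ob τ τ' false)) (b := c) r k.2
      (Submodule.zero_mem (W τ τ' (c.deg - a))) (r • k).2 (by rw [add_zero]; rfl) m
    rw [map_mul_zero M.property, add_zero] at h
    exact h

theorem frL_nat (M : GM τ τ' false) (a : Gam2) (m : M.obj.obj ⟨a⟩) (c d : Ob τ τ' false) (φ : c ⟶ d)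
    (k : W τ τ' (c.deg - a)) (k' : W τ τ' (d.deg - a)) (h : k'.1 = (φ : Mor c d).f * k.1) :
    frL M a m d k' = M.obj.map φ (frL M a m c k) := by
  have h := Run7.h354.BE.mul_apply M.obj (a := (⟨a⟩ : Ob τ τ' false)) (b := c) (c := d)
    k.2 (f_mem φ) k'.2 h m
  rw [← eq_mul φ] at h
  exact h

/-- The map from a free module with value `m` on the generator. -/
noncomputable def frm (M : GM τ τ' false) (a : Gam2) (m : M.obj.obj ⟨a⟩) : fm (fW τ τ') a ⟶ M :=
  (lin τ τ' false).homMk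
  { app := fun c => ModuleCat.ofHom (frL M a m c)
    naturality := fun c d φ => by
      refine ModuleCat.hom_ext (LinearMap.ext fun k => ?_)
      exact frL_nat M a m c d φ k _ rfl }

theorem frm_app (M : GM τ τ' false) (a : Gam2) (m : M.obj.obj ⟨a⟩) (c : Ob τ τ' false)
    (k : W τ τ' (c.deg - a)) : (frm M a m).hom.app c k =
      M.obj.map (mul (a := (⟨a⟩ : Ob τ τ' false)) (b := c) k.1 k.2) m := rfl

/-- the generator -/
def gen (a : Gam2) : W τ τ' (a - a) := ⟨1, by rw [sub_self]; exact W_one⟩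

theorem frm_gen (M : GM τ τ' false) (a : Gam2) (m : M.obj.obj ⟨a⟩) :
    (frm M a m).hom.app ⟨a⟩ (gen a) = m := by
  rw [frm_app]
  have h : mul (a := (⟨a⟩ : Ob τ τ' false)) (b := ⟨a⟩) (gen (τ := τ) (τ' := τ') a).1 (gen a).2 = 𝟙 _ :=
    Mor.ext rfl rfl
  rw [h, M.obj.map_id]
  rfl

/-- maps from a free module are determined by the value on the generator -/
theorem hom_ext {M : GM τ τ' false} {a : Gam2} {f g : fm (fW τ τ') a ⟶ M}
    (h : f.hom.app ⟨a⟩ (gen a : W τ τ' (a - a)) = g.hom.app ⟨a⟩ (gen a : W τ τ' (a - a))) : f = g := by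
  have key : ∀ f : fm (fW τ τ') a ⟶ M, ∀ (c : Ob τ τ' false) (k : W τ τ' (c.deg - a)),
      f.hom.app c k = M.obj.map (mul (a := (⟨a⟩ : Ob τ τ' false)) (b := c) k.1 k.2)
        (f.hom.app ⟨a⟩ (gen a : W τ τ' (a - a))) := by
    intro f c k
    have h2 := nat_apply f.hom (mul (a := (⟨a⟩ : Ob τ τ' false)) (b := c) k.1 k.2)
      (gen a : W τ τ' (a - a))
    have h3 : (fm (fW τ τ') a).obj.map (mul (a := (⟨a⟩ : Ob τ τ' false)) (b := c) k.1 k.2)
      (gen a : W τ τ' (a - a)) = k := Subtype.ext (mul_one _)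
    rw [← h2, h3]
  refine ObjectProperty.hom_ext _ ?_
  ext c k
  have h1 := key f c k
  have h2 := key g c k
  rw [h] at h1
  exact h1.trans h2.symm

theorem frm_comp {M N : GM τ τ' false} (a : Gam2) (m : M.obj.obj ⟨a⟩) (g : M ⟶ N) :
    frm M a m ≫ g = frm N a (g.hom.app ⟨a⟩ m) := by
  refine hom_ext ?_
  rw [frm_gen]
  show g.hom.app _ ((frm M a m).hom.app _ (gen a)) = _
  rw [frm_gen]

/-- fractions -/
theorem exists_frac {M N : GM τ τ' false}
    (f : (sh τ τ' false).obj M ⟶ (sh τ τ' false).obj N) :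
    ∃ (M' : GM τ τ' false) (s : M' ⟶ M) (g : M' ⟶ N), IsIso ((sh τ τ' false).map s) ∧
      (sh τ τ' false).map s ≫ f = (sh τ τ' false).map g := by
  obtain ⟨φ, hφ⟩ := Localization.exists_rightFraction (sh τ τ' false) (tors τ τ' false).isoModSerre f
  refine ⟨φ.X', φ.s, φ.f, Localization.inverts (sh τ τ' false) _ _ φ.hs, ?_⟩
  rw [hφ]
  exact MorphismProperty.RightFraction.map_s_comp_map _ _ _

theorem sh_obj (N : QC τ τ' false) : ∃ M : GM τ τ' false, Nonempty ((sh τ τ' false).obj M ≅ N) := by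
  have := Localization.essSurj (sh τ τ' false) (tors τ τ' false).isoModSerre
  exact ⟨_, ⟨(sh τ τ' false).objObjPreimageIso N⟩⟩

/-- The sheaf of a map is epi iff it is locally surjective up to torsion. -/
theorem epi_sh {M N : GM τ τ' false} (g : M ⟶ N) :
    Epi ((sh τ τ' false).map g) ↔ ∀ (a : Ob τ τ' false) (x : N.obj.obj a) (z w : ℂ),
      ∃ (γ δ : Gam) (k h : ℂ → ℂ) (hk : k ∈ V τ γ) (hh : h ∈ V τ' δ), k z ≠ 0 ∧ h w ≠ 0 ∧
        ∃ m, g.hom.app ⟨a.deg + (γ, δ)⟩ m = N.obj.map (mulP a hk hh) x := by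
  have h0 : Epi ((sh τ τ' false).map g) ↔ tors τ τ' false (cokernel g) :=
    ObjectProperty.SerreClassLocalization.epi_map_iff (sh τ τ' false) (tors τ τ' false) g
  rw [h0, tors_iff]
  have hex : (ShortComplex.mk g (cokernel.π g) (cokernel.condition g)).Exact :=
    ShortComplex.exact_cokernel g
  have hex' := (gm_exact_iff _).1 hex
  have hep : Epi ((lin τ τ' false).ι.map (cokernel.π g)) := (lin τ τ' false).ι.map_epi _
  have hsur : ∀ a, Function.Surjective ((cokernel.π g).hom.app a) := (epi_iff _).1 hep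
  constructor
  · intro h a x z w
    obtain ⟨γ, δ, k, h', hk, hh, h1, h2, h3⟩ := h a ((cokernel.π g).hom.app a x) z w
    rw [← nat_apply] at h3
    obtain ⟨m, hm⟩ := hex' _ _ h3
    exact ⟨γ, δ, k, h', hk, hh, h1, h2, m, hm⟩
  · intro h a y z w
    obtain ⟨x, rfl⟩ := hsur a y
    obtain ⟨γ, δ, k, h', hk, hh, h1, h2, m, hm⟩ := h a x z w
    refine ⟨γ, δ, k, h', hk, hh, h1, h2, ?_⟩
    rw [← nat_apply, ← hm]
    have h4 : g ≫ cokernel.π g = 0 := cokernel.condition g
    have h5 := congrArg (fun f => f.hom.app ⟨a.deg + (γ, δ)⟩ m) h4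
    exact h5

/-- A nonzero map of sheaves is not zero on some line bundle, where it comes from a map of modules. -/
theorem detect {M N : GM τ τ' false} (f : (sh τ τ' false).obj M ⟶ (sh τ τ' false).obj N)
    (hf : f ≠ 0) : ∃ (a : Gam2) (i : (sh τ τ' false).obj (fm (fW τ τ') a) ⟶ (sh τ τ' false).obj M)
      (n : N.obj.obj ⟨a⟩), i ≫ f = (sh τ τ' false).map (frm N a n) ∧ ¬ TE N.obj n := by
  obtain ⟨M', s, g, hs, hg⟩ := exists_frac f
  have h1 : (sh τ τ' false).map g ≠ 0 := by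
    intro h0
    rw [h0] at hg
    apply hf
    rw [← cancel_epi ((sh τ τ' false).map s), hg, comp_zero]
  rw [ne_eq, sh_map_eq_zero] at h1
  push Not at h1
  obtain ⟨a, x, hx⟩ := h1
  obtain ⟨a⟩ := a
  refine ⟨a, (sh τ τ' false).map (frm M' a x) ≫ (sh τ τ' false).map s, g.hom.app ⟨a⟩ x, ?_, hx⟩
  rw [Category.assoc, hg, ← Functor.map_comp, frm_comp]

end Run7.h67.BEG
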